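import Mathlib
import Pool.Agent.H.MP_34b196_pr.D

namespace Pool.Agent.Results.MP_46e535_pr.BothInfinite

open MeasureTheory Filter Topology Set Pool.Agent.H.MP_34b196_pr Pool.Agent.H.MP_34b196_pr.B

local instance : MeasurableSpace (ℕ × ℕ →₀ ℕ) := ⊤

noncomputable def pp (n : ℕ) : ℝ := 1 / ((n : ℝ) + 2) ^ 2

lemma pp_pos (n : ℕ) : 0 < pp n := by unfold pp; positivity

lemma pp_le (n : ℕ) : pp n ≤ 1 := by
  unfold pp; rw [div_le_one (by positivity)]; nlinarith [Nat.cast_nonneg (α := ℝ) n]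

noncomputable def mu (x : ℕ × ℕ) : Measure (ℕ × ℕ →₀ ℕ) :=
  two (pp x.2) (Finsupp.single (x.1, x.2 + 1) 1) (Finsupp.single (x.1 + 1, 0) 1 + Finsupp.single (0, 0) 1)

instance (x : ℕ × ℕ) : IsProbabilityMeasure (mu x) := two_prob (pp_pos _).le (pp_le _) _ _

lemma G_mu (s : ℕ × ℕ → ℝ) (i n : ℕ) :
    G mu s (i, n) = s (i, n + 1) * (1 - pp n + pp n * (s (i + 1, 0) * s (0, 0))) := by
  simp only [G, mu, two_int (pp_pos _).le (pp_le _), mono_add, mono_single]

lemma G_up {u : ℕ × ℕ → ℝ} (hu : u ∈ Icc (0 : ℕ × ℕ → ℝ) 1) (i n : ℕ) : G mu u (i, n) ≤ u (i, n + 1) := by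
  rw [G_mu]
  refine mul_le_of_le_one_right (hu.1 _) ?_
  have := mul_le_one₀ (hu.2 (i + 1, 0)) (hu.1 (0, 0)) (hu.2 (0, 0))
  nlinarith [pp_pos n]

lemma tele (n : ℕ) : ((n : ℝ) + 1 + 1) / (n + 1 + 2) * (1 - pp n) = (n + 1) / (n + 2) := by
  unfold pp; field_simp; ring

lemma q_zero {A : Set (ℕ × ℕ)} {i : ℕ} (h : ∀ n, ∃ m ≥ n, (i, m) ∈ A) : qq mu A (i, 0) = 0 :=
  spine (fun n => (i, n)) (fun _ hu n => G_up hu i n) h

lemma q_low {A : Set (ℕ × ℕ)} {i N : ℕ} (h : ∀ m ≥ N, (i, m) ∉ A) {n : ℕ} (hn : N ≤ n) :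
    ((n : ℝ) + 1) / (n + 2) ≤ qq mu A (i, n) := by
  have hv : (fun x : ℕ × ℕ => if x.1 = i ∧ N ≤ x.2 then ((x.2 : ℝ) + 1) / (x.2 + 2) else 0) ∈
      Icc (0 : ℕ × ℕ → ℝ) 1 := by
    constructor <;> intro x <;> simp only [Pi.zero_apply, Pi.one_apply] <;> split_ifs
    · positivity
    · rfl
    · rw [div_le_one (by positivity)]; linarith
    · exact zero_le_one
  have := (le_rho (μ := mu) (A := A) hv ?_).trans (rho_le A 0) (i, n)
  · simpa [hn] using this
  · rintro ⟨j, m⟩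
    by_cases hc : j = i ∧ N ≤ m
    · obtain ⟨rfl, hm⟩ := hc
      simp only [K, if_neg (h m hm), G_mu]
      have a := mul_nonneg (pp_pos m).le (mul_nonneg (hv.1 (j + 1, 0)) (hv.1 (0, 0)))
      simp only [true_and, hm, hm.trans (Nat.le_succ m), if_true] at a ⊢
      rw [← tele m]
      push_cast
      exact mul_le_mul_of_nonneg_left (by linarith) (by positivity)
    · simp only [if_neg hc]
      exact (K_mem A hv).1 _

noncomputable def l (a : ℝ) (x : ℕ × ℕ) : ℝ := if x.1 = 0 then a * ((x.2 + 1) / (x.2 + 2)) else 0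

lemma l_mem {a : ℝ} (h0 : 0 < a) (h1 : a < 1) : l a ∈ Fix mu \ Ext mu := by
  refine ⟨⟨⟨fun x => ?_, fun x => ?_⟩, funext fun ⟨i, n⟩ => ?_⟩, ?_⟩
  · simp only [l, Pi.zero_apply]; split_ifs <;> positivity
  · simp only [l, Pi.one_apply]; split_ifs
    · exact mul_le_one₀ h1.le (by positivity) (by rw [div_le_one (by positivity)]; linarith)
    · exact zero_le_one
  · rw [G_mu]
    simp only [l, Nat.add_one_ne_zero, if_false, zero_mul, mul_zero, add_zero]
    split_ifs
    · rw [← tele n]; push_cast; ring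
    · simp
  · rintro ⟨A, hA⟩
    by_cases h : ∀ n, ∃ m ≥ n, (0, m) ∈ A
    · have := q_zero h
      rw [hA] at this
      simp [l, h0.ne'] at this
    · push Not at h
      obtain ⟨N, hN⟩ := h
      have := q_low hN le_rfl
      rw [hA] at this
      simp only [l, if_true] at this
      nlinarith [show (0 : ℝ) < (N + 1) / (N + 2) by positivity]

theorem result : ∃ (X : Type) (_ : Countable X) (_ : Nonempty X) (_ : MeasurableSpace (X →₀ ℕ))
    (_ : DiscreteMeasurableSpace (X →₀ ℕ)) (μ : X → Measure (X →₀ ℕ))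
    (_ : ∀ x, IsProbabilityMeasure (μ x)),
    Irred μ ∧ (∃ x, μ x {f | f.sum (fun _ k => k) = 1} < 1) ∧
      (Ext μ).Infinite ∧ (Fix μ \ Ext μ).Infinite := by
  refine ⟨ℕ × ℕ, inferInstance, inferInstance, ⊤, inferInstance, mu, inferInstance, ?_, ⟨(0, 0), ?_⟩,
    infinite_of_injective_forall_mem (f := fun k : ℕ => qq mu {x | x.1 = k}) (fun j k h => ?_)
      fun k => ⟨_, rfl⟩,
    infinite_of_injective_forall_mem (f := fun k : ℕ => l (1 / ((k : ℝ) + 2))) (fun j k h => ?_)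
      fun k => l_mem (by positivity) (by
        rw [div_lt_one (by positivity)]; linarith [Nat.cast_nonneg (α := ℝ) k])⟩
  · rintro ⟨i, n⟩ ⟨j, m⟩
    induction m with
    | succ m ih => exact ih.tail (two_ne (pp_pos _) (by simp))
    | zero =>
      induction j with
      | zero => exact .single (two_ne (pp_pos _) (by simp))
      | succ j ih => exact ih.tail (two_ne (pp_pos _) (by simp))
  · refine lt_of_le_of_ne prob_le_one fun h => ?_
    rw [← prob_compl_eq_zero_iff MeasurableSet.of_discrete] at h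
    refine two_ne (pp_pos _) ?_ h
    simp [Finsupp.sum_add_index']
  · by_contra hjk
    have h1 := q_zero (A := {x | x.1 = j}) (i := j) fun n => ⟨n, le_rfl, rfl⟩
    have h2 := q_low (A := {x | x.1 = k}) (i := j) (N := 0) (fun m _ => hjk) le_rfl
    rw [← show qq mu {x | x.1 = j} = qq mu {x | x.1 = k} from h, h1] at h2
    norm_num at h2
  · have := congrFun h (0, 0)
    simpa [l] using this

end Pool.Agent.Results.MP_46e535_pr.BothInfinite
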